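import Mathlib
import Pool.Agent.H.MP_fbe6c8_co.Chk

namespace Pool.Agent.Results.MP_fbe6c8_co.Six

open Pool.Agent.H.MP_fbe6c8_co

/-- all vertices of a plane binary tree, as left/right paths from the root -/
def pos : BinaryTree Unit → List (List Bool)
  | .nil => [[]]
  | .node _ l r => [] :: ((pos l).map (false :: ·) ++ (pos r).map (true :: ·))

/-- the leaves, from left to right -/
def leaves : BinaryTree Unit → List (List Bool)
  | .nil => [[]]
  | .node _ l r => (leaves l).map (false :: ·) ++ (leaves r).map (true :: ·)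

/-- the cubic Halin graph of a plane binary tree with one extra leaf `none` attached to the root -/
def halin (T : BinaryTree Unit) :
    SimpleGraph {v : Option (List Bool) // v ∈ none :: (pos T).map some} :=
  SimpleGraph.fromRel fun u v =>
    (u.1 = none ∧ v.1 = some []) ∨ (∃ p b, u.1 = some p ∧ v.1 = some (p ++ [b])) ∨
      ∃ s t, none :: ((leaves T).map some ++ [none]) = s ++ u.1 :: v.1 :: t

def first : BinaryTree Unit → List Bool
  | .nil => []
  | .node _ l _ => false :: first l

def last : BinaryTree Unit → List Bool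
  | .nil => []
  | .node _ _ r => true :: last r

def Valid : BinaryTree Unit → (List Bool → ℕ) → ℕ → ℕ → ℕ → Prop
  | .nil, c, p, L, R => ok (c []) p L R
  | .node _ l r, c, p, L, R => ok (c []) p (c [false]) (c [true]) ∧
      Valid l (fun x => c (false :: x)) (c []) L (c (true :: first r)) ∧
      Valid r (fun x => c (true :: x)) (c []) (c (false :: last l)) R

theorem valid_sg (s : ℕ) (hs : s < 5) : ∀ T c p L R, Valid T c p L R →
    Valid T (fun x => sg s (c x)) (sg s p) (sg s L) (sg s R) := by
  intro T
  induction T with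
  | nil => intro c p L R h; exact ok_sg s hs h
  | node _ l r ihl ihr =>
    intro c p L R h
    exact ⟨ok_sg s hs h.1, ihl _ _ _ _ h.2.1, ihr _ _ _ _ h.2.2⟩

def cls : BinaryTree Unit → ℕ
  | .nil => 0
  | .node _ l r => zz (cls l) (cls r)

theorem cls_lt : ∀ T, cls T < 9 := by
  intro T
  induction T with
  | nil => decide
  | node _ l r ihl ihr => exact (F6 _ ihl _ ihr).1

theorem inv : ∀ T, ∀ L < 90, ∀ R < 90, (mask (cls T)).testBit (90 * L + R) = true →
    ∃ c, c [] = 0 ∧ c (first T) = eu L ∧ c (last T) = eu R ∧ Valid T c 5 (ev L) (ev R) := by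
  intro T
  induction T with
  | nil =>
    intro L hL R hR h
    obtain ⟨h1, h2, h3⟩ := F7 L hL R hR h
    exact ⟨fun _ => 0, rfl, h1.symm, h2.symm, h3⟩
  | node _ l r ihl ihr =>
    intro L hL R hR h
    obtain ⟨a, b, m, ha, hb, hab, hm, h1, h2⟩ := step _ _ (cls_lt l) (cls_lt r) L R hL hR h
    obtain ⟨c1, a0, a1, a2, a3⟩ := ihl _ (F1 a ha L hL).2.2 _ (F1 a ha m hm).2.2 h1
    obtain ⟨c2, b0, b1, b2, b3⟩ := ihr _ (F1 b hb _ (F2 m hm).2.2).2.2 _ (F1 b hb R hR).2.2 h2
    have v1 := valid_sg a ha _ _ _ _ _ a3
    have v2 := valid_sg b hb _ _ _ _ _ b3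
    rw [F3 a ha, (F1 a ha L hL).2.1, (F1 a ha m hm).2.1] at v1
    rw [F3 b hb, (F1 b hb R hR).2.1, (F1 b hb _ (F2 m hm).2.2).2.1, (F2 m hm).2.1] at v2
    refine ⟨fun x => match x with
      | [] => 0
      | false :: y => sg a (c1 y)
      | true :: y => sg b (c2 y), rfl, ?_, ?_, ?_, ?_, ?_⟩
    · show sg a (c1 (first l)) = eu L
      rw [a1, (F1 a ha L hL).1]
    · show sg b (c2 (last r)) = eu R
      rw [b2, (F1 b hb R hR).1]
    · show ok 0 5 (sg a (c1 [])) (sg b (c2 []))
      rw [a0, b0]; exact F5 a ha b hb hab
    · show Valid l (fun x => sg a (c1 x)) 0 (ev L) (sg b (c2 (first r)))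
      rw [b1, (F1 b hb _ (F2 m hm).2.2).1, (F2 m hm).1]; exact v1
    · show Valid r (fun x => sg b (c2 x)) 0 (sg a (c1 (last l))) (ev R)
      rw [a2, (F1 a ha m hm).1]; exact v2

def prevL : BinaryTree Unit → List Bool → Option (List Bool)
  | .node _ l _, false :: x => (prevL l x).map (false :: ·)
  | .node _ l r, true :: x => some ((prevL r x).elim (false :: last l) (true :: ·))
  | _, _ => none

def nextL : BinaryTree Unit → List Bool → Option (List Bool)
  | .node _ l r, false :: x => some ((nextL l x).elim (true :: first r) (false :: ·))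
  | .node _ _ r, true :: x => (nextL r x).map (true :: ·)
  | _, _ => none

def par (x : List Bool) : Option (List Bool) := if x = [] then none else some x.dropLast

theorem par_cons (b : Bool) (x : List Bool) (c : List Bool → ℕ) (p : ℕ) :
    (par (b :: x)).elim p c = (par x).elim (c []) (fun y => c (b :: y)) := by
  cases x with
  | nil => simp [par]
  | cons a y => simp [par]

theorem lemA : ∀ T c p L R, Valid T c p L R → ∀ x ∈ leaves T,
    ok (c x) ((par x).elim p c) ((prevL T x).elim L c) ((nextL T x).elim R c) := by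
  intro T
  induction T with
  | nil =>
    intro c p L R h x hx
    simp only [leaves, List.mem_singleton] at hx
    subst hx
    exact h
  | node _ l r ihl ihr =>
    intro c p L R h x hx
    simp only [leaves, List.mem_append, List.mem_map] at hx
    rcases hx with ⟨y, hy, rfl⟩ | ⟨y, hy, rfl⟩
    · have := ihl _ _ _ _ h.2.1 y hy
      rw [par_cons]
      simp only [prevL, nextL]
      cases h1 : prevL l y <;> cases h2 : nextL l y <;> rw [h1, h2] at this <;> exact this
    · have := ihr _ _ _ _ h.2.2 y hy
      rw [par_cons]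
      simp only [prevL, nextL]
      cases h1 : prevL r y <;> cases h2 : nextL r y <;> rw [h1, h2] at this <;> exact this

theorem lemB : ∀ T c p L R, Valid T c p L R → ∀ x ∈ pos T, x ∉ leaves T →
    ok (c x) ((par x).elim p c) (c (x ++ [false])) (c (x ++ [true])) := by
  intro T
  induction T with
  | nil =>
    intro c p L R h x hx hx'
    exact absurd hx hx'
  | node _ l r ihl ihr =>
    intro c p L R h x hx hx'
    simp only [pos, List.mem_cons, List.mem_append, List.mem_map] at hx
    simp only [leaves, List.mem_append, List.mem_map, not_or] at hx'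
    rcases hx with rfl | ⟨y, hy, rfl⟩ | ⟨y, hy, rfl⟩
    · exact h.1
    · rw [par_cons]
      exact ihl _ _ _ _ h.2.1 y hy (fun hh => hx'.1 ⟨y, hh, rfl⟩)
    · rw [par_cons]
      exact ihr _ _ _ _ h.2.2 y hy (fun hh => hx'.2 ⟨y, hh, rfl⟩)

theorem lemD : ∀ T, ∀ x ∈ leaves T, ∀ b, x ++ [b] ∉ pos T := by
  intro T
  induction T with
  | nil =>
    intro x hx b
    simp [pos]
  | node _ l r ihl ihr =>
    intro x hx b h
    simp only [leaves, List.mem_append, List.mem_map] at hx
    simp only [pos, List.mem_cons, List.mem_append, List.mem_map] at h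
    rcases hx with ⟨y, hy, rfl⟩ | ⟨y, hy, rfl⟩
    · rcases h with h | ⟨z, hz, h⟩ | ⟨z, hz, h⟩
      · simp at h
      · simp only [List.cons_append, List.cons.injEq, true_and] at h
        exact ihl y hy b (h ▸ hz)
      · simp at h
    · rcases h with h | ⟨z, hz, h⟩ | ⟨z, hz, h⟩
      · simp at h
      · simp at h
      · simp only [List.cons_append, List.cons.injEq, true_and] at h
        exact ihr y hy b (h ▸ hz)

theorem lemC : ∀ T, (leaves T).head? = some (first T) ∧ (leaves T).getLast? = some (last T) ∧
    prevL T (first T) = none ∧ nextL T (last T) = none ∧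
    List.IsChain (fun x y => nextL T x = some y ∧ prevL T y = some x) (leaves T) := by
  intro T
  induction T with
  | nil => simp [leaves, first, last, prevL, nextL]
  | node _ l r ihl ihr =>
    obtain ⟨a1, a2, a3, a4, a5⟩ := ihl
    obtain ⟨b1, b2, b3, b4, b5⟩ := ihr
    refine ⟨?_, ?_, ?_, ?_, ?_⟩
    · simp [leaves, first, List.head?_append, a1]
    · simp [leaves, last, List.getLast?_append, b2]
    · simp [first, prevL, a3]
    · simp [last, nextL, b4]
    · simp only [leaves]
      rw [List.isChain_append]
      refine ⟨?_, ?_, ?_⟩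
      · rw [List.isChain_map]
        refine a5.imp ?_
        intro x y h
        simp [nextL, prevL, h.1, h.2]
      · rw [List.isChain_map]
        refine b5.imp ?_
        intro x y h
        simp [nextL, prevL, h.1, h.2]
      · intro x hx y hy
        simp only [List.getLast?_map, a2, Option.map_some, Option.mem_def, Option.some.injEq] at hx
        simp only [List.head?_map, b1, Option.map_some, Option.mem_def, Option.some.injEq] at hy
        subst hx hy
        simp [nextL, prevL, a4, b3]

def nxt (T : BinaryTree Unit) (u : Option (List Bool)) : Option (List Bool) :=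
  u.elim (some (first T)) (nextL T)

def prv (T : BinaryTree Unit) (u : Option (List Bool)) : Option (List Bool) :=
  u.elim (some (last T)) (prevL T)

theorem lemE (T : BinaryTree Unit) (u v : Option (List Bool)) (s t)
    (h : none :: ((leaves T).map some ++ [none]) = s ++ u :: v :: t) :
    nxt T u = v ∧ prv T v = u ∧ (∀ x, u = some x → x ∈ leaves T) ∧
      (∀ x, v = some x → x ∈ leaves T) := by
  obtain ⟨a1, a2, a3, a4, a5⟩ := lemC T
  have hc : List.IsChain (fun u v => nxt T u = v ∧ prv T v = u)
      (none :: ((leaves T).map some ++ [none])) := by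
    rw [List.isChain_cons]
    refine ⟨?_, ?_⟩
    · intro y hy
      simp only [List.head?_append, List.head?_map, a1, Option.map_some, Option.some_or,
        Option.mem_def, Option.some.injEq] at hy
      subst hy
      simp [nxt, prv, a3]
    · rw [List.isChain_append]
      refine ⟨?_, by simp, ?_⟩
      · rw [List.isChain_map]
        refine a5.imp ?_
        intro x y h
        simp [nxt, prv, h.1, h.2]
      · intro x hx y hy
        simp only [List.getLast?_map, a2, Option.map_some, Option.mem_def, Option.some.injEq] at hx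
        simp only [List.head?_cons, Option.mem_def, Option.some.injEq] at hy
        subst hx hy
        simp [nxt, prv, a4]
  have h1 := List.isChain_iff_forall_rel_of_append_cons_cons.1 hc h
  have hm : ∀ x, some x ∈ s ++ u :: v :: t → x ∈ leaves T := by
    intro x hx
    rw [← h] at hx
    simpa using hx
  refine ⟨h1.1, h1.2, ?_, ?_⟩
  · rintro x rfl; exact hm x (by simp)
  · rintro x rfl; exact hm x (by simp)

theorem local_ok (T : BinaryTree Unit) (c : List Bool → ℕ)
    (hv : Valid T c 5 5 5) (h0 : ok 5 (c []) (c (first T)) (c (last T)))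
    (w : {v : Option (List Bool) // v ∈ none :: (pos T).map some}) :
    ∃ n1 n2 n3 : Option (List Bool),
      ok (w.1.elim 5 c) (n1.elim 5 c) (n2.elim 5 c) (n3.elim 5 c) ∧
      ∀ u, (halin T).Adj w u → u.1 = n1 ∨ u.1 = n2 ∨ u.1 = n3 := by
  obtain ⟨w, hw⟩ := w
  cases w with
  | none =>
    refine ⟨some [], some (first T), some (last T), h0, ?_⟩
    intro u hu
    simp only [halin, SimpleGraph.fromRel_adj] at hu
    rcases hu.2 with (h | ⟨p, b, h, _⟩ | ⟨s, t, h⟩) | (h | ⟨p, b, _, h⟩ | ⟨s, t, h⟩)
    · exact Or.inl h.2
    · simp at h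
    · exact Or.inr (Or.inl (lemE T _ _ s t h).1.symm)
    · simp at h
    · simp at h
    · exact Or.inr (Or.inr (lemE T _ _ s t h).2.1.symm)
  | some x =>
    have hx : x ∈ pos T := by simpa using hw
    have hpar : ∀ u : Option (List Bool), (u = none ∧ some x = some []) ∨
        (∃ p b, u = some p ∧ some x = some (p ++ [b])) → u = par x := by
      rintro u (⟨h1, h2⟩ | ⟨p, b, h1, h2⟩)
      · simp only [Option.some.injEq] at h2
        simp [par, h1, h2]
      · simp only [Option.some.injEq] at h2
        simp [par, h1, h2]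
    by_cases hl : x ∈ leaves T
    · refine ⟨par x, prevL T x, nextL T x, lemA T c 5 5 5 hv x hl, ?_⟩
      intro u hu
      simp only [halin, SimpleGraph.fromRel_adj] at hu
      rcases hu.2 with (h | ⟨p, b, h, h'⟩ | ⟨s, t, h⟩) | (h | h | ⟨s, t, h⟩)
      · simp at h
      · exfalso
        simp only [Option.some.injEq] at h
        have := u.2
        rw [h', ← h] at this
        exact lemD T x hl b (by simpa using this)
      · exact Or.inr (Or.inr (lemE T _ _ s t h).1.symm)
      · exact Or.inl (hpar _ (Or.inl h))
      · exact Or.inl (hpar _ (Or.inr h))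
      · exact Or.inr (Or.inl (lemE T _ _ s t h).2.1.symm)
    · refine ⟨par x, some (x ++ [false]), some (x ++ [true]), lemB T c 5 5 5 hv x hx hl, ?_⟩
      intro u hu
      simp only [halin, SimpleGraph.fromRel_adj] at hu
      rcases hu.2 with (h | ⟨p, b, h, h'⟩ | ⟨s, t, h⟩) | (h | h | ⟨s, t, h⟩)
      · simp at h
      · simp only [Option.some.injEq] at h
        subst h
        cases b
        · exact Or.inr (Or.inl h')
        · exact Or.inr (Or.inr h')
      · exact absurd ((lemE T _ _ s t h).2.2.1 x rfl) hl
      · exact Or.inl (hpar _ (Or.inl h))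
      · exact Or.inl (hpar _ (Or.inr h))
      · exact absurd ((lemE T _ _ s t h).2.2.2 x rfl) hl

theorem result (T : BinaryTree Unit)
    (hn : 6 ≤ Nat.card {v : Option (List Bool) // v ∈ none :: (pos T).map some}) :
    ∃ f : {v : Option (List Bool) // v ∈ none :: (pos T).map some} → Finset (Fin 6),
      (∀ v, (f v).card = 2) ∧
        ∀ u v, u ≠ v → (((f u ∩ f v).card : ℕ) : ℕ∞) < (halin T).edist u v := by
  have hlen : 6 ≤ (none :: (pos T).map some).length := by
    refine hn.trans ?_
    rw [Nat.card_eq_fintype_card, Fintype.card_of_subtype (none :: (pos T).map some).toFinset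
      (fun x => List.mem_toFinset)]
    exact List.toFinset_card_le _
  have h2 : 2 ≤ cls T := by
    cases T with
    | nil => simp [pos] at hlen
    | node o l r =>
      have h6 := F6 _ (cls_lt l) _ (cls_lt r)
      by_contra hc
      have h1 : zz (cls l) (cls r) = 1 := by
        have : cls (.node o l r) = zz (cls l) (cls r) := rfl
        omega
      obtain ⟨hl, hr⟩ := h6.2.2 h1
      have hz : ∀ S, cls S = 0 → S = .nil := by
        intro S hS
        cases S with
        | nil => rfl
        | node _ a b =>
          have := (F6 _ (cls_lt a) _ (cls_lt b)).2.1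
          have h' : zz (cls a) (cls b) = 0 := hS
          omega
      rw [hz l hl, hz r hr] at hlen
      simp [pos] at hlen
  obtain ⟨L, hL, R, hR, hb, e1, e2, hok⟩ := F8 _ (cls_lt T) h2
  obtain ⟨c, c0, c1, c2, hv⟩ := inv T L hL R hR hb
  rw [e1, e2] at hv
  rw [← c1, ← c2, ← c0] at hok
  have hloc := local_ok T c hv hok
  have hlt : ∀ w : {v : Option (List Bool) // v ∈ none :: (pos T).map some},
      w.1.elim 5 c < 15 := fun w => by
    obtain ⟨_, _, _, h, _⟩ := hloc w
    exact h.1
  refine ⟨fun w => fs (w.1.elim 5 c), fun w => (F9 _ (hlt w) _ (hlt w)).1, ?_⟩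
  intro u v huv
  have hF := F9 _ (hlt u) _ (hlt v)
  by_contra hcon
  rw [not_lt] at hcon
  have hle : (halin T).edist u v ≤ 2 := hcon.trans (by exact_mod_cast hF.2.1)
  have hne : (halin T).edist u v ≠ ⊤ := ne_top_of_le_ne_top (by decide) hle
  obtain ⟨p, hp⟩ := SimpleGraph.exists_walk_of_edist_ne_top hne
  rw [← hp] at hcon hle
  have hcon' : p.length ≤ (fs (u.1.elim 5 c) ∩ fs (v.1.elim 5 c)).card := by exact_mod_cast hcon
  have hle' : p.length ≤ 2 := by exact_mod_cast hle
  cases p with
  | nil => exact huv rfl
  | cons h1 q =>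
    cases q with
    | nil =>
      obtain ⟨n1, n2, n3, hk, hadj⟩ := hloc u
      have : cm (u.1.elim 5 c) &&& cm (v.1.elim 5 c) = 0 := by
        rcases hadj v h1 with h | h | h <;> rw [h]
        exacts [hk.2.2.2.2.1, hk.2.2.2.2.2.1, hk.2.2.2.2.2.2.1]
      rw [hF.2.2.2 this] at hcon'
      simp at hcon'
    | cons h2 q =>
      rename_i w z
      cases q with
      | nil =>
        obtain ⟨n1, n2, n3, hk, hadj⟩ := hloc w
        have hne' : u.1 ≠ v.1 := fun h => huv (Subtype.ext h)
        have : u.1.elim 5 c ≠ v.1.elim 5 c := by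
          obtain ⟨-, -, -, -, -, -, -, k1, k2, k3⟩ := hk
          rcases hadj u h1.symm with h | h | h <;> rcases hadj v h2 with h' | h' | h' <;>
            first
            | exact absurd (h.trans h'.symm) hne'
            | (rw [h, h']; first | assumption | exact fun e => k1 e.symm | exact fun e => k2 e.symm | exact fun e => k3 e.symm)
        have := hF.2.2.1 this
        simp only [SimpleGraph.Walk.length_cons, SimpleGraph.Walk.length_nil] at hcon'
        omega
      | cons h3 q => simp at hle'

end Pool.Agent.Results.MP_fbe6c8_co.Six
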